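import Pool.Agent.N321.KT.Defs

/-!
Project KT of helper321, leaf N5 (subtask 11575, by helper296): five coordinates, order 3.
-/

set_option autoImplicit false
set_option linter.all false

namespace Pool.Agent.N296.KT

open Pool.Agent.N321.KT

theorem can {p X : ℝ} (hp : p ^ 2 = 1) (h : p * X = 0) : X = 0 := by
  have h0 : p ≠ 0 := by
    rintro rfl
    norm_num at hp
  exact (mul_eq_zero.1 h).resolve_left h0

theorem sq_one {a : ℝ} (h : a ^ 2 = 1) : a = 1 ∨ a = -1 := by
  have h1 : (a - 1) * (a + 1) = 0 := by linear_combination h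
  rcases mul_eq_zero.1 h1 with h2 | h2
  · exact Or.inl (by linarith)
  · exact Or.inr (by linarith)

theorem sq3 {a b c : ℝ} (ha : a ^ 2 = 1) (hb : b ^ 2 = 1) (hc : c ^ 2 = 1) : (a * b * c) ^ 2 = 1 := by
  rw [mul_pow, mul_pow, ha, hb, hc, one_mul, one_mul]

theorem sq4 {a b c d : ℝ} (ha : a ^ 2 = 1) (hb : b ^ 2 = 1) (hc : c ^ 2 = 1) (hd : d ^ 2 = 1) :
    (a * b * c * d) ^ 2 = 1 := by
  rw [mul_pow, sq3 ha hb hc, hd, one_mul]

set_option maxHeartbeats 4000000 in
theorem key (e : Fin 5 → ℝ) (he : ∀ i, e i ^ 2 = 1) (v : Jet (Fin 5) ℝ) (hs : Sym v)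
    (hR : Rows 3 (Kjet ![0, 1, 3, 7, 12] (lin e b5)) v) :
    (v [0] = 0 ∧ v [1] = 0 ∧ v [2] = 0 ∧ v [3] = 0 ∧ v [4] = 0) ∧
    v [0, 0] = 0 ∧ v [1, 1] = 0 ∧ v [2, 2] = 0 ∧ v [3, 3] = 0 ∧ v [4, 4] = 0 := by
  have s10 : v [1, 0] = v [0, 1] := hs _ _ (by decide)
  have s20 : v [2, 0] = v [0, 2] := hs _ _ (by decide)
  have s30 : v [3, 0] = v [0, 3] := hs _ _ (by decide)
  have s40 : v [4, 0] = v [0, 4] := hs _ _ (by decide)
  have s21 : v [2, 1] = v [1, 2] := hs _ _ (by decide)
  have s31 : v [3, 1] = v [1, 3] := hs _ _ (by decide)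
  have s41 : v [4, 1] = v [1, 4] := hs _ _ (by decide)
  have s32 : v [3, 2] = v [2, 3] := hs _ _ (by decide)
  have s42 : v [4, 2] = v [2, 4] := hs _ _ (by decide)
  have s43 : v [4, 3] = v [3, 4] := hs _ _ (by decide)
  have s021 : v [0, 2, 1] = v [0, 1, 2] := hs _ _ (by decide)
  have s102 : v [1, 0, 2] = v [0, 1, 2] := hs _ _ (by decide)
  have s120 : v [1, 2, 0] = v [0, 1, 2] := hs _ _ (by decide)
  have s201 : v [2, 0, 1] = v [0, 1, 2] := hs _ _ (by decide)
  have s210 : v [2, 1, 0] = v [0, 1, 2] := hs _ _ (by decide)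
  have s031 : v [0, 3, 1] = v [0, 1, 3] := hs _ _ (by decide)
  have s103 : v [1, 0, 3] = v [0, 1, 3] := hs _ _ (by decide)
  have s130 : v [1, 3, 0] = v [0, 1, 3] := hs _ _ (by decide)
  have s301 : v [3, 0, 1] = v [0, 1, 3] := hs _ _ (by decide)
  have s310 : v [3, 1, 0] = v [0, 1, 3] := hs _ _ (by decide)
  have s041 : v [0, 4, 1] = v [0, 1, 4] := hs _ _ (by decide)
  have s104 : v [1, 0, 4] = v [0, 1, 4] := hs _ _ (by decide)
  have s140 : v [1, 4, 0] = v [0, 1, 4] := hs _ _ (by decide)
  have s401 : v [4, 0, 1] = v [0, 1, 4] := hs _ _ (by decide)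
  have s410 : v [4, 1, 0] = v [0, 1, 4] := hs _ _ (by decide)
  have s032 : v [0, 3, 2] = v [0, 2, 3] := hs _ _ (by decide)
  have s203 : v [2, 0, 3] = v [0, 2, 3] := hs _ _ (by decide)
  have s230 : v [2, 3, 0] = v [0, 2, 3] := hs _ _ (by decide)
  have s302 : v [3, 0, 2] = v [0, 2, 3] := hs _ _ (by decide)
  have s320 : v [3, 2, 0] = v [0, 2, 3] := hs _ _ (by decide)
  have s042 : v [0, 4, 2] = v [0, 2, 4] := hs _ _ (by decide)
  have s204 : v [2, 0, 4] = v [0, 2, 4] := hs _ _ (by decide)
  have s240 : v [2, 4, 0] = v [0, 2, 4] := hs _ _ (by decide)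
  have s402 : v [4, 0, 2] = v [0, 2, 4] := hs _ _ (by decide)
  have s420 : v [4, 2, 0] = v [0, 2, 4] := hs _ _ (by decide)
  have s043 : v [0, 4, 3] = v [0, 3, 4] := hs _ _ (by decide)
  have s304 : v [3, 0, 4] = v [0, 3, 4] := hs _ _ (by decide)
  have s340 : v [3, 4, 0] = v [0, 3, 4] := hs _ _ (by decide)
  have s403 : v [4, 0, 3] = v [0, 3, 4] := hs _ _ (by decide)
  have s430 : v [4, 3, 0] = v [0, 3, 4] := hs _ _ (by decide)
  have s132 : v [1, 3, 2] = v [1, 2, 3] := hs _ _ (by decide)
  have s213 : v [2, 1, 3] = v [1, 2, 3] := hs _ _ (by decide)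
  have s231 : v [2, 3, 1] = v [1, 2, 3] := hs _ _ (by decide)
  have s312 : v [3, 1, 2] = v [1, 2, 3] := hs _ _ (by decide)
  have s321 : v [3, 2, 1] = v [1, 2, 3] := hs _ _ (by decide)
  have s142 : v [1, 4, 2] = v [1, 2, 4] := hs _ _ (by decide)
  have s214 : v [2, 1, 4] = v [1, 2, 4] := hs _ _ (by decide)
  have s241 : v [2, 4, 1] = v [1, 2, 4] := hs _ _ (by decide)
  have s412 : v [4, 1, 2] = v [1, 2, 4] := hs _ _ (by decide)
  have s421 : v [4, 2, 1] = v [1, 2, 4] := hs _ _ (by decide)
  have s143 : v [1, 4, 3] = v [1, 3, 4] := hs _ _ (by decide)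
  have s314 : v [3, 1, 4] = v [1, 3, 4] := hs _ _ (by decide)
  have s341 : v [3, 4, 1] = v [1, 3, 4] := hs _ _ (by decide)
  have s413 : v [4, 1, 3] = v [1, 3, 4] := hs _ _ (by decide)
  have s431 : v [4, 3, 1] = v [1, 3, 4] := hs _ _ (by decide)
  have s243 : v [2, 4, 3] = v [2, 3, 4] := hs _ _ (by decide)
  have s324 : v [3, 2, 4] = v [2, 3, 4] := hs _ _ (by decide)
  have s342 : v [3, 4, 2] = v [2, 3, 4] := hs _ _ (by decide)
  have s423 : v [4, 2, 3] = v [2, 3, 4] := hs _ _ (by decide)
  have s432 : v [4, 3, 2] = v [2, 3, 4] := hs _ _ (by decide)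
  have M01 : v [0, 1] + e 0 * e 1 * (v [2] + v [4]) = 0 := by
    have h := hR [] (by simp) 0 1
    simp [om, th, mul, D, Kjet, lin, b5, Fin.sum_univ_five] at h
    simp only [s10, s20, s30, s40, s21, s31, s41, s32, s42, s43, s021, s102, s120, s201, s210, s031, s103, s130, s301, s310, s041, s104, s140, s401, s410, s032, s203, s230, s302, s320, s042, s204, s240, s402, s420, s043, s304, s340, s403, s430, s132, s213, s231, s312, s321, s142, s214, s241, s412, s421, s143, s314, s341, s413, s431, s243, s324, s342, s423, s432] at h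
    linear_combination h
  have M02 : 3 * v [0, 2] + 2 * e 0 * e 2 * (v [1] + v [3] + v [4]) = 0 := by
    have h := hR [] (by simp) 0 2
    simp [om, th, mul, D, Kjet, lin, b5, Fin.sum_univ_five] at h
    simp only [s10, s20, s30, s40, s21, s31, s41, s32, s42, s43, s021, s102, s120, s201, s210, s031, s103, s130, s301, s310, s041, s104, s140, s401, s410, s032, s203, s230, s302, s320, s042, s204, s240, s402, s420, s043, s304, s340, s403, s430, s132, s213, s231, s312, s321, s142, s214, s241, s412, s421, s143, s314, s341, s413, s431, s243, s324, s342, s423, s432] at h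
    linear_combination h
  have M03 : 7 * v [0, 3] + e 0 * e 3 * v [2] = 0 := by
    have h := hR [] (by simp) 0 3
    simp [om, th, mul, D, Kjet, lin, b5, Fin.sum_univ_five] at h
    simp only [s10, s20, s30, s40, s21, s31, s41, s32, s42, s43, s021, s102, s120, s201, s210, s031, s103, s130, s301, s310, s041, s104, s140, s401, s410, s032, s203, s230, s302, s320, s042, s204, s240, s402, s420, s043, s304, s340, s403, s430, s132, s213, s231, s312, s321, s142, s214, s241, s412, s421, s143, s314, s341, s413, s431, s243, s324, s342, s423, s432] at h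
    linear_combination h
  have M04 : 12 * v [0, 4] + e 0 * e 4 * (2 * v [1] + v [2]) = 0 := by
    have h := hR [] (by simp) 0 4
    simp [om, th, mul, D, Kjet, lin, b5, Fin.sum_univ_five] at h
    simp only [s10, s20, s30, s40, s21, s31, s41, s32, s42, s43, s021, s102, s120, s201, s210, s031, s103, s130, s301, s310, s041, s104, s140, s401, s410, s032, s203, s230, s302, s320, s042, s204, s240, s402, s420, s043, s304, s340, s403, s430, s132, s213, s231, s312, s321, s142, s214, s241, s412, s421, s143, s314, s341, s413, s431, s243, s324, s342, s423, s432] at h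
    linear_combination h
  have M12 : 2 * v [1, 2] + e 1 * e 2 * v [0] = 0 := by
    have h := hR [] (by simp) 1 2
    simp [om, th, mul, D, Kjet, lin, b5, Fin.sum_univ_five] at h
    simp only [s10, s20, s30, s40, s21, s31, s41, s32, s42, s43, s021, s102, s120, s201, s210, s031, s103, s130, s301, s310, s041, s104, s140, s401, s410, s032, s203, s230, s302, s320, s042, s204, s240, s402, s420, s043, s304, s340, s403, s430, s132, s213, s231, s312, s321, s142, s214, s241, s412, s421, s143, s314, s341, s413, s431, s243, s324, s342, s423, s432] at h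
    linear_combination h
  have M13 : 6 * v [1, 3] = 0 := by
    have h := hR [] (by simp) 1 3
    simp [om, th, mul, D, Kjet, lin, b5, Fin.sum_univ_five] at h
    simp only [s10, s20, s30, s40, s21, s31, s41, s32, s42, s43, s021, s102, s120, s201, s210, s031, s103, s130, s301, s310, s041, s104, s140, s401, s410, s032, s203, s230, s302, s320, s042, s204, s240, s402, s420, s043, s304, s340, s403, s430, s132, s213, s231, s312, s321, s142, s214, s241, s412, s421, s143, s314, s341, s413, s431, s243, s324, s342, s423, s432] at h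
    linear_combination h
  have M14 : 11 * v [1, 4] + e 1 * e 4 * v [0] = 0 := by
    have h := hR [] (by simp) 1 4
    simp [om, th, mul, D, Kjet, lin, b5, Fin.sum_univ_five] at h
    simp only [s10, s20, s30, s40, s21, s31, s41, s32, s42, s43, s021, s102, s120, s201, s210, s031, s103, s130, s301, s310, s041, s104, s140, s401, s410, s032, s203, s230, s302, s320, s042, s204, s240, s402, s420, s043, s304, s340, s403, s430, s132, s213, s231, s312, s321, s142, s214, s241, s412, s421, s143, s314, s341, s413, s431, s243, s324, s342, s423, s432] at h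
    linear_combination h
  have M23 : 4 * v [2, 3] + e 2 * e 3 * (v [4] - v [0]) = 0 := by
    have h := hR [] (by simp) 2 3
    simp [om, th, mul, D, Kjet, lin, b5, Fin.sum_univ_five] at h
    simp only [s10, s20, s30, s40, s21, s31, s41, s32, s42, s43, s021, s102, s120, s201, s210, s031, s103, s130, s301, s310, s041, s104, s140, s401, s410, s032, s203, s230, s302, s320, s042, s204, s240, s402, s420, s043, s304, s340, s403, s430, s132, s213, s231, s312, s321, s142, s214, s241, s412, s421, s143, s314, s341, s413, s431, s243, s324, s342, s423, s432] at h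
    linear_combination h
  have M24 : 9 * v [2, 4] + e 2 * e 4 * (2 * v [3] - v [0]) = 0 := by
    have h := hR [] (by simp) 2 4
    simp [om, th, mul, D, Kjet, lin, b5, Fin.sum_univ_five] at h
    simp only [s10, s20, s30, s40, s21, s31, s41, s32, s42, s43, s021, s102, s120, s201, s210, s031, s103, s130, s301, s310, s041, s104, s140, s401, s410, s032, s203, s230, s302, s320, s042, s204, s240, s402, s420, s043, s304, s340, s403, s430, s132, s213, s231, s312, s321, s142, s214, s241, s412, s421, s143, s314, s341, s413, s431, s243, s324, s342, s423, s432] at h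
    linear_combination h
  have M34 : 5 * v [3, 4] + e 3 * e 4 * v [2] = 0 := by
    have h := hR [] (by simp) 3 4
    simp [om, th, mul, D, Kjet, lin, b5, Fin.sum_univ_five] at h
    simp only [s10, s20, s30, s40, s21, s31, s41, s32, s42, s43, s021, s102, s120, s201, s210, s031, s103, s130, s301, s310, s041, s104, s140, s401, s410, s032, s203, s230, s302, s320, s042, s204, s240, s402, s420, s043, s304, s340, s403, s430, s132, s213, s231, s312, s321, s142, s214, s241, s412, s421, s143, s314, s341, s413, s431, s243, s324, s342, s423, s432] at h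
    linear_combination h
  have q01_3 : (1 * e 0 * e 1 * v [2, 3]) + (1 * e 0 * e 1 * v [3, 4]) + (1 * v [0, 1, 3]) = 0 := by
    have h := hR [3] (by simp) 0 1
    simp [om, th, mul, D, Kjet, lin, b5, Fin.sum_univ_five] at h
    simp only [s10, s20, s30, s40, s21, s31, s41, s32, s42, s43, s021, s102, s120, s201, s210, s031, s103, s130, s301, s310, s041, s104, s140, s401, s410, s032, s203, s230, s302, s320, s042, s204, s240, s402, s420, s043, s304, s340, s403, s430, s132, s213, s231, s312, s321, s142, s214, s241, s412, s421, s143, s314, s341, s413, s431, s243, s324, s342, s423, s432] at h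
    linear_combination h
  have q03_1 : (1 * e 0 * e 3 * v [1, 2]) + (7 * v [0, 1, 3]) = 0 := by
    have h := hR [1] (by simp) 0 3
    simp [om, th, mul, D, Kjet, lin, b5, Fin.sum_univ_five] at h
    simp only [s10, s20, s30, s40, s21, s31, s41, s32, s42, s43, s021, s102, s120, s201, s210, s031, s103, s130, s301, s310, s041, s104, s140, s401, s410, s032, s203, s230, s302, s320, s042, s204, s240, s402, s420, s043, s304, s340, s403, s430, s132, s213, s231, s312, s321, s142, s214, s241, s412, s421, s143, s314, s341, s413, s431, s243, s324, s342, s423, s432] at h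
    linear_combination h
  have q13_4 : (1 * e 1 * e 4 * v [0, 3]) + (-1 * e 3 * e 4 * v [1, 2]) + (6 * v [1, 3, 4]) = 0 := by
    have h := hR [4] (by simp) 1 3
    simp [om, th, mul, D, Kjet, lin, b5, Fin.sum_univ_five] at h
    simp only [s10, s20, s30, s40, s21, s31, s41, s32, s42, s43, s021, s102, s120, s201, s210, s031, s103, s130, s301, s310, s041, s104, s140, s401, s410, s032, s203, s230, s302, s320, s042, s204, s240, s402, s420, s043, s304, s340, s403, s430, s132, s213, s231, s312, s321, s142, s214, s241, s412, s421, s143, s314, s341, s413, s431, s243, s324, s342, s423, s432] at h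
    linear_combination h
  have q14_3 : (1 * e 1 * e 4 * v [0, 3]) + (11 * v [1, 3, 4]) = 0 := by
    have h := hR [3] (by simp) 1 4
    simp [om, th, mul, D, Kjet, lin, b5, Fin.sum_univ_five] at h
    simp only [s10, s20, s30, s40, s21, s31, s41, s32, s42, s43, s021, s102, s120, s201, s210, s031, s103, s130, s301, s310, s041, s104, s140, s401, s410, s032, s203, s230, s302, s320, s042, s204, s240, s402, s420, s043, s304, s340, s403, s430, s132, s213, s231, s312, s321, s142, s214, s241, s412, s421, s143, s314, s341, s413, s431, s243, s324, s342, s423, s432] at h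
    linear_combination h
  have q12_3 : (1 * e 1 * e 2 * v [0, 3]) + (2 * v [1, 2, 3]) = 0 := by
    have h := hR [3] (by simp) 1 2
    simp [om, th, mul, D, Kjet, lin, b5, Fin.sum_univ_five] at h
    simp only [s10, s20, s30, s40, s21, s31, s41, s32, s42, s43, s021, s102, s120, s201, s210, s031, s103, s130, s301, s310, s041, s104, s140, s401, s410, s032, s203, s230, s302, s320, s042, s204, s240, s402, s420, s043, s304, s340, s403, s430, s132, s213, s231, s312, s321, s142, s214, s241, s412, s421, s143, s314, s341, s413, s431, s243, s324, s342, s423, s432] at h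
    linear_combination h
  have q23_1 : (-1 * e 2 * e 3 * v [0, 1]) + (1 * e 2 * e 3 * v [1, 4]) + (4 * v [1, 2, 3]) = 0 := by
    have h := hR [1] (by simp) 2 3
    simp [om, th, mul, D, Kjet, lin, b5, Fin.sum_univ_five] at h
    simp only [s10, s20, s30, s40, s21, s31, s41, s32, s42, s43, s021, s102, s120, s201, s210, s031, s103, s130, s301, s310, s041, s104, s140, s401, s410, s032, s203, s230, s302, s320, s042, s204, s240, s402, s420, s043, s304, s340, s403, s430, s132, s213, s231, s312, s321, s142, s214, s241, s412, s421, s143, s314, s341, s413, s431, s243, s324, s342, s423, s432] at h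
    linear_combination h
  have q03_4 : (1 * e 0 * e 4 * v [1, 3]) + (1 * e 0 * e 3 * v [2, 4]) + (-1 * e 3 * e 4 * v [0, 2]) + (7 * v [0, 3, 4]) = 0 := by
    have h := hR [4] (by simp) 0 3
    simp [om, th, mul, D, Kjet, lin, b5, Fin.sum_univ_five] at h
    simp only [s10, s20, s30, s40, s21, s31, s41, s32, s42, s43, s021, s102, s120, s201, s210, s031, s103, s130, s301, s310, s041, s104, s140, s401, s410, s032, s203, s230, s302, s320, s042, s204, s240, s402, s420, s043, s304, s340, s403, s430, s132, s213, s231, s312, s321, s142, s214, s241, s412, s421, s143, s314, s341, s413, s431, s243, s324, s342, s423, s432] at h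
    linear_combination h
  have q04_3 : (2 * e 0 * e 4 * v [1, 3]) + (1 * e 0 * e 4 * v [2, 3]) + (12 * v [0, 3, 4]) = 0 := by
    have h := hR [3] (by simp) 0 4
    simp [om, th, mul, D, Kjet, lin, b5, Fin.sum_univ_five] at h
    simp only [s10, s20, s30, s40, s21, s31, s41, s32, s42, s43, s021, s102, s120, s201, s210, s031, s103, s130, s301, s310, s041, s104, s140, s401, s410, s032, s203, s230, s302, s320, s042, s204, s240, s402, s420, s043, s304, s340, s403, s430, s132, s213, s231, s312, s321, s142, s214, s241, s412, s421, s143, s314, s341, s413, s431, s243, s324, s342, s423, s432] at h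
    linear_combination h
  have q12_4 : (1 * e 1 * e 2 * v [0, 4]) + (1 * e 1 * e 4 * v [0, 2]) + (-1 * e 2 * e 4 * v [1, 3]) + (2 * v [1, 2, 4]) = 0 := by
    have h := hR [4] (by simp) 1 2
    simp [om, th, mul, D, Kjet, lin, b5, Fin.sum_univ_five] at h
    simp only [s10, s20, s30, s40, s21, s31, s41, s32, s42, s43, s021, s102, s120, s201, s210, s031, s103, s130, s301, s310, s041, s104, s140, s401, s410, s032, s203, s230, s302, s320, s042, s204, s240, s402, s420, s043, s304, s340, s403, s430, s132, s213, s231, s312, s321, s142, s214, s241, s412, s421, s143, s314, s341, s413, s431, s243, s324, s342, s423, s432] at h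
    linear_combination h
  have q24_1 : (-1 * e 2 * e 4 * v [0, 1]) + (2 * e 2 * e 4 * v [1, 3]) + (9 * v [1, 2, 4]) = 0 := by
    have h := hR [1] (by simp) 2 4
    simp [om, th, mul, D, Kjet, lin, b5, Fin.sum_univ_five] at h
    simp only [s10, s20, s30, s40, s21, s31, s41, s32, s42, s43, s021, s102, s120, s201, s210, s031, s103, s130, s301, s310, s041, s104, s140, s401, s410, s032, s203, s230, s302, s320, s042, s204, s240, s402, s420, s043, s304, s340, s403, s430, s132, s213, s231, s312, s321, s142, s214, s241, s412, s421, s143, s314, s341, s413, s431, s243, s324, s342, s423, s432] at h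
    linear_combination h
  have q01_2 : (-1 * e 1 * e 2 * v [0, 0]) + (1 * e 0 * e 2 * v [1, 1]) + (1 * e 0 * e 1 * v [2, 2]) + (1 * e 0 * e 2 * v [1, 3]) + (1 * e 0 * e 1 * v [2, 4]) + (1 * e 0 * e 2 * v [1, 4]) + (1 * v [0, 1, 2]) = 0 := by
    have h := hR [2] (by simp) 0 1
    simp [om, th, mul, D, Kjet, lin, b5, Fin.sum_univ_five] at h
    simp only [s10, s20, s30, s40, s21, s31, s41, s32, s42, s43, s021, s102, s120, s201, s210, s031, s103, s130, s301, s310, s041, s104, s140, s401, s410, s032, s203, s230, s302, s320, s042, s204, s240, s402, s420, s043, s304, s340, s403, s430, s132, s213, s231, s312, s321, s142, s214, s241, s412, s421, s143, s314, s341, s413, s431, s243, s324, s342, s423, s432] at h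
    linear_combination h
  have q02_1 : (2 * e 0 * e 2 * v [1, 1]) + (2 * e 0 * e 2 * v [1, 3]) + (2 * e 0 * e 2 * v [1, 4]) + (3 * v [0, 1, 2]) = 0 := by
    have h := hR [1] (by simp) 0 2
    simp [om, th, mul, D, Kjet, lin, b5, Fin.sum_univ_five] at h
    simp only [s10, s20, s30, s40, s21, s31, s41, s32, s42, s43, s021, s102, s120, s201, s210, s031, s103, s130, s301, s310, s041, s104, s140, s401, s410, s032, s203, s230, s302, s320, s042, s204, s240, s402, s420, s043, s304, s340, s403, s430, s132, s213, s231, s312, s321, s142, s214, s241, s412, s421, s143, s314, s341, s413, s431, s243, s324, s342, s423, s432] at h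
    linear_combination h
  have q01_4 : (-1 * e 1 * e 4 * v [0, 0]) + (1 * e 0 * e 4 * v [1, 1]) + (1 * e 0 * e 1 * v [2, 4]) + (1 * e 0 * e 1 * v [4, 4]) + (1 * v [0, 1, 4]) = 0 := by
    have h := hR [4] (by simp) 0 1
    simp [om, th, mul, D, Kjet, lin, b5, Fin.sum_univ_five] at h
    simp only [s10, s20, s30, s40, s21, s31, s41, s32, s42, s43, s021, s102, s120, s201, s210, s031, s103, s130, s301, s310, s041, s104, s140, s401, s410, s032, s203, s230, s302, s320, s042, s204, s240, s402, s420, s043, s304, s340, s403, s430, s132, s213, s231, s312, s321, s142, s214, s241, s412, s421, s143, s314, s341, s413, s431, s243, s324, s342, s423, s432] at h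
    linear_combination h
  have q04_1 : (2 * e 0 * e 4 * v [1, 1]) + (1 * e 0 * e 4 * v [1, 2]) + (12 * v [0, 1, 4]) = 0 := by
    have h := hR [1] (by simp) 0 4
    simp [om, th, mul, D, Kjet, lin, b5, Fin.sum_univ_five] at h
    simp only [s10, s20, s30, s40, s21, s31, s41, s32, s42, s43, s021, s102, s120, s201, s210, s031, s103, s130, s301, s310, s041, s104, s140, s401, s410, s032, s203, s230, s302, s320, s042, s204, s240, s402, s420, s043, s304, s340, s403, s430, s132, s213, s231, s312, s321, s142, s214, s241, s412, s421, s143, s314, s341, s413, s431, s243, s324, s342, s423, s432] at h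
    linear_combination h
  have q02_3 : (2 * e 0 * e 2 * v [1, 3]) + (2 * e 0 * e 2 * v [3, 3]) + (2 * e 0 * e 2 * v [3, 4]) + (3 * v [0, 2, 3]) = 0 := by
    have h := hR [3] (by simp) 0 2
    simp [om, th, mul, D, Kjet, lin, b5, Fin.sum_univ_five] at h
    simp only [s10, s20, s30, s40, s21, s31, s41, s32, s42, s43, s021, s102, s120, s201, s210, s031, s103, s130, s301, s310, s041, s104, s140, s401, s410, s032, s203, s230, s302, s320, s042, s204, s240, s402, s420, s043, s304, s340, s403, s430, s132, s213, s231, s312, s321, s142, s214, s241, s412, s421, s143, s314, s341, s413, s431, s243, s324, s342, s423, s432] at h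
    linear_combination h
  have q23_0 : (-1 * e 2 * e 3 * v [0, 0]) + (-1 * e 0 * e 2 * v [1, 3]) + (1 * e 0 * e 3 * v [2, 2]) + (-1 * e 0 * e 2 * v [3, 3]) + (1 * e 2 * e 3 * v [0, 4]) + (-1 * e 0 * e 2 * v [3, 4]) + (4 * v [0, 2, 3]) = 0 := by
    have h := hR [0] (by simp) 2 3
    simp [om, th, mul, D, Kjet, lin, b5, Fin.sum_univ_five] at h
    simp only [s10, s20, s30, s40, s21, s31, s41, s32, s42, s43, s021, s102, s120, s201, s210, s031, s103, s130, s301, s310, s041, s104, s140, s401, s410, s032, s203, s230, s302, s320, s042, s204, s240, s402, s420, s043, s304, s340, s403, s430, s132, s213, s231, s312, s321, s142, s214, s241, s412, s421, s143, s314, s341, s413, s431, s243, s324, s342, s423, s432] at h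
    linear_combination h
  have q02_4 : (2 * e 0 * e 2 * v [1, 4]) + (1 * e 0 * e 4 * v [1, 2]) + (2 * e 0 * e 2 * v [3, 4]) + (-1 * e 2 * e 4 * v [0, 3]) + (2 * e 0 * e 2 * v [4, 4]) + (3 * v [0, 2, 4]) = 0 := by
    have h := hR [4] (by simp) 0 2
    simp [om, th, mul, D, Kjet, lin, b5, Fin.sum_univ_five] at h
    simp only [s10, s20, s30, s40, s21, s31, s41, s32, s42, s43, s021, s102, s120, s201, s210, s031, s103, s130, s301, s310, s041, s104, s140, s401, s410, s032, s203, s230, s302, s320, s042, s204, s240, s402, s420, s043, s304, s340, s403, s430, s132, s213, s231, s312, s321, s142, s214, s241, s412, s421, s143, s314, s341, s413, s431, s243, s324, s342, s423, s432] at h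
    linear_combination h
  have q04_2 : (-1 * e 2 * e 4 * v [0, 0]) + (2 * e 0 * e 4 * v [1, 2]) + (1 * e 0 * e 2 * v [1, 4]) + (1 * e 0 * e 4 * v [2, 2]) + (1 * e 2 * e 4 * v [0, 3]) + (1 * e 0 * e 2 * v [3, 4]) + (1 * e 0 * e 2 * v [4, 4]) + (12 * v [0, 2, 4]) = 0 := by
    have h := hR [2] (by simp) 0 4
    simp [om, th, mul, D, Kjet, lin, b5, Fin.sum_univ_five] at h
    simp only [s10, s20, s30, s40, s21, s31, s41, s32, s42, s43, s021, s102, s120, s201, s210, s031, s103, s130, s301, s310, s041, s104, s140, s401, s410, s032, s203, s230, s302, s320, s042, s204, s240, s402, s420, s043, s304, s340, s403, s430, s132, s213, s231, s312, s321, s142, s214, s241, s412, s421, s143, s314, s341, s413, s431, s243, s324, s342, s423, s432] at h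
    linear_combination h
  have q23_4 : (-1 * e 2 * e 3 * v [0, 4]) + (-1 * e 3 * e 4 * v [2, 2]) + (1 * e 2 * e 4 * v [3, 3]) + (1 * e 2 * e 3 * v [4, 4]) + (4 * v [2, 3, 4]) = 0 := by
    have h := hR [4] (by simp) 2 3
    simp [om, th, mul, D, Kjet, lin, b5, Fin.sum_univ_five] at h
    simp only [s10, s20, s30, s40, s21, s31, s41, s32, s42, s43, s021, s102, s120, s201, s210, s031, s103, s130, s301, s310, s041, s104, s140, s401, s410, s032, s203, s230, s302, s320, s042, s204, s240, s402, s420, s043, s304, s340, s403, s430, s132, s213, s231, s312, s321, s142, s214, s241, s412, s421, s143, s314, s341, s413, s431, s243, s324, s342, s423, s432] at h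
    linear_combination h
  have q24_3 : (-1 * e 2 * e 4 * v [0, 3]) + (2 * e 2 * e 4 * v [3, 3]) + (9 * v [2, 3, 4]) = 0 := by
    have h := hR [3] (by simp) 2 4
    simp [om, th, mul, D, Kjet, lin, b5, Fin.sum_univ_five] at h
    simp only [s10, s20, s30, s40, s21, s31, s41, s32, s42, s43, s021, s102, s120, s201, s210, s031, s103, s130, s301, s310, s041, s104, s140, s401, s410, s032, s203, s230, s302, s320, s042, s204, s240, s402, s420, s043, s304, s340, s403, s430, s132, s213, s231, s312, s321, s142, s214, s241, s412, s421, s143, s314, s341, s413, s431, s243, s324, s342, s423, s432] at h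
    linear_combination h
  clear hR
  have X013 : (9 / 4) * e 2 * v [0] - (7 / 4) * e 2 * v [4] - (7 / 5) * e 4 * v [2] = 0 := by
    refine can (sq3 (he 0) (he 1) (he 3)) ?_
    linear_combination 7 * q01_3 - q03_1 - (7 / 4) * e 0 * e 1 * M23 - (7 / 5) * e 0 * e 1 * M34 +
      (1 / 2) * e 0 * e 3 * M12
  have X134 : -(5 / 7) * e 0 * v [2] + (11 / 2) * e 2 * v [0] = 0 := by
    refine can (sq3 (he 1) (he 3) (he 4)) ?_
    linear_combination 11 * q13_4 - 6 * q14_3 - (5 / 7) * e 1 * e 4 * M03 + (11 / 2) * e 3 * e 4 * M12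
  have X123 : -(2 / 7) * e 0 * v [2] - e 0 * (v [2] + v [4]) + (1 / 11) * e 4 * v [0] = 0 := by
    refine can (sq3 (he 1) (he 2) (he 3)) ?_
    linear_combination 2 * q12_3 - q23_1 - (2 / 7) * e 1 * e 2 * M03 - e 2 * e 3 * M01 +
      (1 / 11) * e 2 * e 3 * M14
  have X034 : -(4 / 3) * (2 * v [3] - v [0]) + 8 * (v [1] + v [3] + v [4]) +
      (7 / 4) * (v [4] - v [0]) = 0 := by
    refine can (sq4 (he 0) (he 2) (he 3) (he 4)) ?_
    linear_combination 12 * q03_4 - 7 * q04_3 - (4 / 3) * e 0 * e 3 * M24 + 4 * e 3 * e 4 * M02 +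
      (7 / 4) * e 0 * e 4 * M23 + (1 / 3) * e 0 * e 4 * M13
  have X124 : -(3 / 4) * (2 * v [1] + v [2]) - 6 * (v [1] + v [3] + v [4]) -
      2 * (v [2] + v [4]) = 0 := by
    refine can (sq4 (he 0) (he 1) (he 2) (he 4)) ?_
    linear_combination 9 * q12_4 - 2 * q24_1 - (3 / 4) * e 1 * e 2 * M04 - 3 * e 1 * e 4 * M02 -
      2 * e 2 * e 4 * M01 + (13 / 6) * e 2 * e 4 * M13
  have hx : v [0] = 0 ∧ v [2] = 0 ∧ v [4] = 0 := by
    rcases sq_one (he 0) with h0 | h0 <;> rcases sq_one (he 2) with h2 | h2 <;>
      rcases sq_one (he 4) with h4 | h4 <;>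
      (rw [h2, h4] at X013; rw [h0, h2] at X134; rw [h0, h4] at X123;
       refine ⟨by linarith, by linarith, by linarith⟩)
  obtain ⟨x0, x2, x4⟩ := hx
  have x1 : v [1] = 0 := by
    rw [x0, x4] at X034
    rw [x2, x4] at X124
    linarith
  have x3 : v [3] = 0 := by
    rw [x0, x4] at X034
    rw [x2, x4] at X124
    linarith
  rw [x2, x4] at M01
  rw [x1, x3, x4] at M02
  rw [x2] at M03
  rw [x1, x2] at M04
  rw [x0] at M12 M14
  rw [x4, x0] at M23
  rw [x3, x0] at M24
  rw [x2] at M34
  have m01 : v [0, 1] = 0 := by linarith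
  have m02 : v [0, 2] = 0 := by linarith
  have m03 : v [0, 3] = 0 := by linarith
  have m04 : v [0, 4] = 0 := by linarith
  have m12 : v [1, 2] = 0 := by linarith
  have m13 : v [1, 3] = 0 := by linarith
  have m14 : v [1, 4] = 0 := by linarith
  have m23 : v [2, 3] = 0 := by linarith
  have m24 : v [2, 4] = 0 := by linarith
  have m34 : v [3, 4] = 0 := by linarith
  have hz : ∀ i : Fin 5, ∃ z : ℝ, v [i, i] = e i * z := fun i => ⟨e i * v [i, i], by
    linear_combination -(v [i, i]) * he i⟩
  obtain ⟨z0, hz0⟩ := hz 0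
  obtain ⟨z1, hz1⟩ := hz 1
  obtain ⟨z2, hz2⟩ := hz 2
  obtain ⟨z3, hz3⟩ := hz 3
  obtain ⟨z4, hz4⟩ := hz 4
  simp only [m01, m02, m03, m04, m12, m13, m14, m23, m24, m34, hz0, hz1, hz2, hz3, hz4] at q01_2 q02_1 q01_4 q04_1 q02_3 q23_0 q02_4 q04_2 q23_4 q24_3
  have Z012 : -3 * z0 + z1 + 3 * z2 = 0 := by
    refine can (sq3 (he 0) (he 1) (he 2)) ?_
    linear_combination 3 * q01_2 - q02_1
  have Z014 : -6 * z0 + 5 * z1 + 6 * z4 = 0 := by
    refine can (sq3 (he 0) (he 1) (he 4)) ?_
    linear_combination 6 * q01_4 - (1 / 2) * q04_1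
  have Z023 : -3 * z0 + 3 * z2 - 11 * z3 = 0 := by
    refine can (sq3 (he 0) (he 2) (he 3)) ?_
    linear_combination 3 * q23_0 - 4 * q02_3
  have Z024 : -z0 + z2 - 7 * z4 = 0 := by
    refine can (sq3 (he 0) (he 2) (he 4)) ?_
    linear_combination q04_2 - 4 * q02_4
  have Z234 : -9 * z2 + z3 + 9 * z4 = 0 := by
    refine can (sq3 (he 2) (he 3) (he 4)) ?_
    linear_combination 9 * q23_4 - 4 * q24_3
  have w0 : z0 = 0 := by linarith
  have w1 : z1 = 0 := by linarith
  have w2 : z2 = 0 := by linarith
  have w3 : z3 = 0 := by linarith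
  have w4 : z4 = 0 := by linarith
  refine ⟨⟨x0, x1, x2, x3, x4⟩, ?_, ?_, ?_, ?_, ?_⟩
  · rw [hz0, w0, mul_zero]
  · rw [hz1, w1, mul_zero]
  · rw [hz2, w2, mul_zero]
  · rw [hz3, w3, mul_zero]
  · rw [hz4, w4, mul_zero]

theorem t (h : S_PUR) : S_N5 := by
  intro e he
  refine h (Fin 5) 3 _ ![0, 1, 3, 7, 12] ?_ (fun s j => rfl) ?_
  · intro i j hij
    fin_cases i <;> fin_cases j <;> first | rfl | (exfalso; norm_num at hij)
  · rintro v ⟨hs, -, hR⟩ i k hk1 hk3
    obtain ⟨⟨a0, a1, a2, a3, a4⟩, c0, c1, c2, c3, c4⟩ := key e he v hs hR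
    obtain rfl | rfl : k = 1 ∨ k = 2 := by omega
    · fin_cases i
      exacts [a0, a1, a2, a3, a4]
    · fin_cases i
      exacts [c0, c1, c2, c3, c4]

end Pool.Agent.N296.KT
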